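import Mathlib
import Pool.Agent.Y109.PI.Mat

/-! Shifts of a vector, and the matrices `S ⊗ ω`. -/

set_option autoImplicit false
set_option linter.all false

open Matrix

noncomputable section

namespace Pool.Agent.W5h66.PW

open Pool.Agent.Y109.PI

/-- systems of `q` quadratic and `l` linear forms in `D` variables have common zeros with a unit
coordinate -/
def HasZeros (R : Type) [CommRing R] (D q l : ℕ) : Prop :=
  ∀ (ι κ : Type) [Fintype ι] [Fintype κ], Fintype.card ι ≤ q → Fintype.card κ ≤ l →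
    ∀ (M : ι → Matrix (Fin D) (Fin D) R) (N : κ → Fin D → R),
      ∃ a : Fin D → R, (∃ t, IsUnit (a t)) ∧ (∀ i, a ⬝ᵥ (M i *ᵥ a) = 0) ∧ ∀ j, N j ⬝ᵥ a = 0

section

/-- the shift by `κ` -/
def Sh (R : Type) [CommRing R] (m D r : ℕ) (κ : Fin r) : Matrix (Fin m) (Fin D) R :=
  Matrix.of fun j t => if (j : ℕ) = t + κ then 1 else 0

variable {R : Type} [CommRing R]

theorem Sh_mulVec (m D r : ℕ) (κ : Fin r) (a : Fin D → R) (j : Fin m) :
    (Sh R m D r κ *ᵥ a) j =
      if h : (κ : ℕ) ≤ j ∧ (j : ℕ) - κ < D then a ⟨(j : ℕ) - κ, h.2⟩ else 0 := by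
  simp only [mulVec, dotProduct, Sh, Matrix.of_apply, ite_mul, one_mul, zero_mul]
  split_ifs with h
  · rw [Finset.sum_eq_single (⟨(j : ℕ) - κ, h.2⟩ : Fin D)]
    · rw [if_pos]
      simp only
      omega
    · intro t _ ht
      rw [if_neg]
      intro h'
      apply ht
      ext
      simp only
      omega
    · intro h'
      exact absurd (Finset.mem_univ _) h'
  · refine Finset.sum_eq_zero fun t _ => ?_
    rw [if_neg]
    intro h'
    apply h
    have := t.2
    constructor <;> omega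

/-- the matrix of the shifts of `a` -/
def SX (m D r : ℕ) (a : Fin D → R) : Matrix (Fin r) (Fin m) R :=
  Matrix.of fun κ j => (Sh R m D r κ *ᵥ a) j

variable {m d h : ℕ}

/-- the matrix `S ⊗ ω`, extended by zero -/
def T (h : ℕ) (S : Matrix (Fin m) (Fin m) R) (ω : Matrix (Fin d) (Fin d) R) :
    Matrix ((Fin m × Fin d) ⊕ Fin h) ((Fin m × Fin d) ⊕ Fin h) R :=
  Matrix.fromBlocks (Matrix.kroneckerMap (fun x y => x * y) S ω) 0 0 0

theorem T_inl (S : Matrix (Fin m) (Fin m) R) (ω : Matrix (Fin d) (Fin d) R) (p q : Fin m × Fin d) :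
    T h S ω (Sum.inl p) (Sum.inl q) = S p.1 q.1 * ω p.2 q.2 := rfl

theorem T_inl_inr (S : Matrix (Fin m) (Fin m) R) (ω : Matrix (Fin d) (Fin d) R) (p : Fin m × Fin d)
    (q : Fin h) : T h S ω (Sum.inl p) (Sum.inr q) = 0 := rfl

theorem T_inr (S : Matrix (Fin m) (Fin m) R) (ω : Matrix (Fin d) (Fin d) R) (p : Fin h)
    (q : (Fin m × Fin d) ⊕ Fin h) : T h S ω (Sum.inr p) q = 0 := by
  rcases q with q | q <;> rfl

theorem T_alt (S : Matrix (Fin m) (Fin m) R) (hS : Sᵀ = S) (ω : Matrix (Fin d) (Fin d) R) (hω : Alt ω) :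
    Alt (T h S ω) := by
  have hS' : ∀ i j, S i j = S j i := fun i j => congrFun (congrFun hS j) i
  constructor
  · rintro (u | u)
    · rw [T_inl, hω.1, mul_zero]
    · exact T_inr _ _ _ _
  · rintro (u | u) (v | v)
    · rw [T_inl, T_inl, hω.2 u.2 v.2, hS' u.1 v.1]; ring
    · rw [T_inl_inr, T_inr, neg_zero]
    · rw [T_inl_inr, T_inr, neg_zero]
    · rw [T_inr, T_inr, neg_zero]

end

end Pool.Agent.W5h66.PW
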