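import Mathlib
import Pool.Agent.W5h66.PW.Core

/-! Many kernel vectors, chosen one after the other. -/

set_option autoImplicit false
set_option linter.all false

open Matrix

noncomputable section

namespace Pool.Agent.W5h66.PW

open Pool.Agent.Y109.PI

section

variable {R : Type} [CommRing R]

/-- the shifts of a primitive vector have an invertible minor -/
theorem exists_minor [IsLocalRing R] {m D r : ℕ} (h : D + r ≤ m + 1) (a : Fin D → R)
    (ha : ∃ t, IsUnit (a t)) : ∃ col : Fin r → Fin m, Function.Injective col ∧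
      IsUnit (Matrix.of fun κ κ' => SX m D r a κ (col κ') : Matrix (Fin r) (Fin r) R).det := by
  classical
  obtain ⟨t0, ht0, hmin⟩ : ∃ t0, IsUnit (a t0) ∧ ∀ t < t0, ¬ IsUnit (a t) := by
    obtain ⟨t0, h1, h2⟩ := WellFounded.has_min (wellFounded_lt (α := Fin D)) {t | IsUnit (a t)} ha
    exact ⟨t0, h1, fun t ht hu => h2 t hu ht⟩
  have ht0D := t0.2
  let col : Fin r → Fin m := fun κ => ⟨t0 + κ, by have := κ.2; omega⟩
  let N : Matrix (Fin r) (Fin r) R := Matrix.of fun κ κ' => SX m D r a κ (col κ')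
  have hN : ∀ κ κ', N κ κ' = if h : (κ : ℕ) ≤ t0 + κ' ∧ (t0 : ℕ) + κ' - κ < D then
      a ⟨(t0 : ℕ) + κ' - κ, h.2⟩ else 0 := fun κ κ' => Sh_mulVec m D r κ a (col κ')
  refine ⟨col, fun κ κ' h' => ?_, ?_⟩
  · have h1 := congrArg Fin.val h'
    simp only [col] at h1
    ext
    omega
  change IsUnit N.det
  rw [← IsLocalRing.residue_ne_zero_iff_isUnit, RingHom.map_det]
  rw [Matrix.det_of_upperTriangular (M := (IsLocalRing.residue R).mapMatrix N)]
  · rw [Finset.prod_ne_zero_iff]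
    intro κ _
    rw [RingHom.mapMatrix_apply, Matrix.map_apply, hN]
    rw [dif_pos (by constructor <;> omega)]
    have : (⟨(t0 : ℕ) + κ - κ, by omega⟩ : Fin D) = t0 := by
      ext; simp
    rw [this]
    exact (IsLocalRing.residue_ne_zero_iff_isUnit _).2 ht0
  · intro κ κ' hlt
    have hlt' : (κ' : ℕ) < κ := hlt
    rw [RingHom.mapMatrix_apply, Matrix.map_apply, hN]
    split_ifs with h'
    · by_contra hne
      have hu := (IsLocalRing.residue_ne_zero_iff_isUnit _).1 hne
      refine hmin _ ?_ hu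
      rw [Fin.lt_def]
      simp only
      omega
    · exact map_zero _

/-- symmetric solutions of linear equations -/
theorem sym_solve' {κ : Type} [Fintype κ] [DecidableEq κ] {m : ℕ} (X Y : Matrix κ (Fin m) R)
    (P : Matrix (Fin m) κ R) (hP : X * P = 1) (hs : Y * Xᵀ = X * Yᵀ) :
    ∃ S : Matrix (Fin m) (Fin m) R, Sᵀ = S ∧ X * S = Y := by
  refine ⟨P * Y + Yᵀ * Pᵀ - P * (Y * Xᵀ) * Pᵀ, ?_, ?_⟩
  · rw [Matrix.transpose_sub, Matrix.transpose_add, Matrix.transpose_mul, Matrix.transpose_mul,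
      Matrix.transpose_mul, Matrix.transpose_mul, Matrix.transpose_mul, Matrix.transpose_transpose,
      Matrix.transpose_transpose, Matrix.transpose_transpose, ← hs, Matrix.mul_assoc P (Y * Xᵀ)]
    rw [add_comm]
  · rw [Matrix.mul_sub, Matrix.mul_add, ← Matrix.mul_assoc, hP, Matrix.one_mul, Matrix.mul_assoc P,
      ← Matrix.mul_assoc X P, hP, Matrix.one_mul, hs, ← Matrix.mul_assoc X Yᵀ]
    abel

variable {m d h : ℕ}

/-- the vector with the components `x k` -/
def vec (h : ℕ) (x : Fin d → Fin m → R) : (Fin m × Fin d) ⊕ Fin h → R :=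
  Sum.elim (fun jk => x jk.2 jk.1) (fun _ => 0)

/-- the right sides of the equations for `S` -/
def yy (ω : Matrix (Fin d) (Fin d) R) (b : Matrix ((Fin m × Fin d) ⊕ Fin h) ((Fin m × Fin d) ⊕ Fin h) R)
    (x : Fin d → Fin m → R) (k : Fin d) : Fin m → R :=
  fun j => -∑ k', ω⁻¹ k k' * (b *ᵥ vec h x) (Sum.inl (j, k'))

theorem yy_inv {ω : Matrix (Fin d) (Fin d) R} (hdet : IsUnit ω.det)
    (b : Matrix ((Fin m × Fin d) ⊕ Fin h) ((Fin m × Fin d) ⊕ Fin h) R)
    (x : Fin d → Fin m → R) (k : Fin d) (j : Fin m) :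
    (b *ᵥ vec h x) (Sum.inl (j, k)) = -∑ k', ω k k' * yy ω b x k' j := by
  classical
  simp only [yy, mul_neg, Finset.sum_neg_distrib, neg_neg, Finset.mul_sum]
  rw [Finset.sum_comm]
  have h4 : ∀ k'', ∑ k', ω k k' * (ω⁻¹ k' k'' * (b *ᵥ vec h x) (Sum.inl (j, k''))) =
      (ω * ω⁻¹) k k'' * (b *ᵥ vec h x) (Sum.inl (j, k'')) := by
    intro k''
    rw [Matrix.mul_apply, Finset.sum_mul]
    exact Finset.sum_congr rfl fun k' _ => by ring
  simp only [h4, Matrix.mul_nonsing_inv _ hdet, Matrix.one_apply, ite_mul, one_mul, zero_mul,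
    Finset.sum_ite_eq, Finset.mem_univ, if_true]

/-- the alternating identity -/
theorem alt_id {ω : Matrix (Fin d) (Fin d) R} (hdet : IsUnit ω.det)
    (b : Matrix ((Fin m × Fin d) ⊕ Fin h) ((Fin m × Fin d) ⊕ Fin h) R) (hb : Alt b)
    (x : Fin d → Fin m → R) : ∑ k, ∑ k', ω k k' * (x k ⬝ᵥ yy ω b x k') = 0 := by
  have h1 := alt_dot_self hb (vec h x)
  rw [dotProduct, Fintype.sum_sum_type, Fintype.sum_prod_type] at h1
  have h2 : ∑ l : Fin h, vec h x (Sum.inr l) * (b *ᵥ vec h x) (Sum.inr l) = 0 :=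
    Finset.sum_eq_zero fun l _ => by
      have : vec h x (Sum.inr l) = 0 := rfl
      rw [this, zero_mul]
  rw [h2, add_zero, Finset.sum_comm] at h1
  have h3 : ∀ k, ∑ j, vec h x (Sum.inl (j, k)) * (b *ᵥ vec h x) (Sum.inl (j, k)) =
      -∑ k', ω k k' * (x k ⬝ᵥ yy ω b x k') := by
    intro k
    have e0 : ∀ j, vec h x (Sum.inl (j, k)) = x k j := fun j => rfl
    simp only [yy_inv hdet, e0, mul_neg, Finset.sum_neg_distrib, neg_inj, Finset.mul_sum, dotProduct]
    rw [Finset.sum_comm]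
    refine Finset.sum_congr rfl fun k' _ => Finset.sum_congr rfl fun j _ => ?_
    ring
  simp only [h3, Finset.sum_neg_distrib, neg_eq_zero] at h1
  exact h1

/-- a family of kernel vectors -/
structure Fam (ω : Matrix (Fin d) (Fin d) R)
    (b : Matrix ((Fin m × Fin d) ⊕ Fin h) ((Fin m × Fin d) ⊕ Fin h) R) (ι : Type) [Fintype ι]
    [DecidableEq ι] (x : ι → Fin d → Fin m → R) : Prop where
  piv : ∃ piv : ι × Fin d → Fin m, Function.Injective piv ∧
    IsUnit (Matrix.of fun κ κ' => x κ.1 κ.2 (piv κ') : Matrix (ι × Fin d) (ι × Fin d) R).det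
  sym : ∀ i k i' k', yy ω b (x i) k ⬝ᵥ x i' k' = yy ω b (x i') k' ⬝ᵥ x i k
  lin : ∀ i l, (b *ᵥ vec h (x i)) (Sum.inr l) = 0

theorem fam_zero (ω : Matrix (Fin d) (Fin d) R)
    (b : Matrix ((Fin m × Fin d) ⊕ Fin h) ((Fin m × Fin d) ⊕ Fin h) R) :
    Fam ω b (Fin 0) (fun i => i.elim0) where
  piv := ⟨fun κ => κ.1.elim0, fun κ => κ.1.elim0, by
    rw [Matrix.det_isEmpty]; exact isUnit_one⟩
  sym := fun i => i.elim0
  lin := fun i => i.elim0

theorem bil {D : ℕ} (Y A : Matrix (Fin m) (Fin D) R) (a : Fin D → R) :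
    a ⬝ᵥ ((Yᵀ * A) *ᵥ a) = (Y *ᵥ a) ⬝ᵥ (A *ᵥ a) := by
  rw [← Matrix.mulVec_mulVec, Matrix.dotProduct_mulVec, Matrix.vecMul_transpose]

/-- the order of the last equation -/
theorem last_eq [IsDomain R] {ω : Matrix (Fin d) (Fin d) R} (hω : Alt ω) (hdet : IsUnit ω.det)
    (b : Matrix ((Fin m × Fin d) ⊕ Fin h) ((Fin m × Fin d) ⊕ Fin h) R) (hb : Alt b)
    (x : Fin d → Fin m → R) (k0 l0 : Fin d) (h0 : ω k0 l0 ≠ 0)
    (hx : ∀ k l, (k, l) ≠ (k0, l0) → (k, l) ≠ (l0, k0) → yy ω b x k ⬝ᵥ x l = yy ω b x l ⬝ᵥ x k) :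
    yy ω b x k0 ⬝ᵥ x l0 = yy ω b x l0 ⬝ᵥ x k0 := by
  classical
  have hne : k0 ≠ l0 := by
    rintro rfl
    exact h0 (hω.1 _)
  let Gm : Fin d → Fin d → R := fun k k' => x k ⬝ᵥ yy ω b x k'
  have hG : ∀ k l, (k, l) ≠ (k0, l0) → (k, l) ≠ (l0, k0) → Gm k l = Gm l k := by
    intro k l h1 h2
    simp only [Gm]
    rw [dotProduct_comm, dotProduct_comm (x l), hx k l h1 h2]
  let δ := Gm k0 l0 - Gm l0 k0
  let G' : Fin d → Fin d → R := fun k k' => Gm k k' - if (k, k') = (k0, l0) then δ else 0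
  have hG' : ∀ k l, G' k l = G' l k := by
    intro k l
    simp only [G']
    by_cases h1 : (k, l) = (k0, l0)
    · obtain ⟨rfl, rfl⟩ := Prod.mk.inj h1
      rw [if_pos rfl, if_neg (fun h2 => hne (Prod.mk.inj h2).2)]
      simp only [δ]; ring
    · by_cases h2 : (k, l) = (l0, k0)
      · obtain ⟨rfl, rfl⟩ := Prod.mk.inj h2
        rw [if_neg h1, if_pos rfl]
        simp only [δ]; ring
      · rw [if_neg h1, if_neg (fun h3 => h2 (by
          obtain ⟨rfl, rfl⟩ := Prod.mk.inj h3; rfl)), hG k l h1 h2]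
  have h1 := alt_id hdet b hb x
  have h2 : ∑ p : Fin d × Fin d, ω p.1 p.2 * G' p.1 p.2 = 0 := by
    refine Finset.sum_involution (fun p _ => (p.2, p.1)) ?_ ?_ ?_ ?_
    · rintro ⟨k, l⟩ _
      simp only
      rw [hω.2 k l, hG' k l]; ring
    · rintro ⟨k, l⟩ _ h3 h4
      simp only [Prod.mk.injEq] at h4
      obtain rfl := h4.1
      exact h3 (by simp only; rw [hω.1, zero_mul])
    · intro p _; exact Finset.mem_univ _
    · intro p _; rfl
  have h3 : ∑ p : Fin d × Fin d, ω p.1 p.2 * Gm p.1 p.2 = 0 := by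
    rw [Fintype.sum_prod_type]
    exact h1
  have h4 : ∑ p : Fin d × Fin d, ω p.1 p.2 * (if (p.1, p.2) = (k0, l0) then δ else 0) = 0 := by
    have h5 : ∀ p : Fin d × Fin d, ω p.1 p.2 * (if (p.1, p.2) = (k0, l0) then δ else 0) =
        ω p.1 p.2 * Gm p.1 p.2 - ω p.1 p.2 * G' p.1 p.2 := by
      intro p
      simp only [G']; ring
    simp only [h5]
    rw [Finset.sum_sub_distrib, h2, h3, sub_zero]
  rw [Finset.sum_eq_single (k0, l0)] at h4
  · rw [if_pos rfl] at h4
    rcases mul_eq_zero.1 h4 with h5 | h5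
    · exact absurd h5 h0
    · have h6 : Gm k0 l0 = Gm l0 k0 := sub_eq_zero.1 h5
      simp only [Gm] at h6
      rw [dotProduct_comm (yy ω b x k0), dotProduct_comm (yy ω b x l0)]
      exact h6.symm
  · rintro ⟨k, l⟩ _ h5
    rw [if_neg h5, mul_zero]
  · intro h5; exact absurd (Finset.mem_univ _) h5

end

section

variable {R : Type} [CommRing R] [IsDomain R] [IsLocalRing R] {m d h : ℕ}

/-- the equivalence of index sets -/
def sg (ι : Type) (d : ℕ) : Fin d ⊕ (ι × Fin d) ≃ Option ι × Fin d where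
  toFun := Sum.elim (fun k => (none, k)) (fun q => (some q.1, q.2))
  invFun := fun q => Option.elim q.1 (Sum.inl q.2) (fun i => Sum.inr (i, q.2))
  left_inv := by rintro (k | ⟨i, k⟩) <;> rfl
  right_inv := by rintro ⟨_ | i, k⟩ <;> rfl

/-- **One more kernel vector.** -/
theorem one_more {ω : Matrix (Fin d) (Fin d) R} (hω : Alt ω) (hdet : IsUnit ω.det) (hd : 0 < d)
    (b : Matrix ((Fin m × Fin d) ⊕ Fin h) ((Fin m × Fin d) ⊕ Fin h) R) (hb : Alt b) {ι : Type}
    [Fintype ι] [DecidableEq ι] {D : ℕ}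
    (hz : HasZeros R D (d * (d - 1) / 2 - 1) (Fintype.card ι * (d * d) + h))
    (hD : D + d + Fintype.card ι * d ≤ m + 1) (x : ι → Fin d → Fin m → R) (hx : Fam ω b ι x) :
    ∃ x' : Option ι → Fin d → Fin m → R, Fam ω b (Option ι) x' := by
  classical
  obtain ⟨piv, hpiv, hu⟩ := hx.piv
  -- a nonzero entry of `ω`
  obtain ⟨k0, l0, h0, hlt0⟩ : ∃ k0 l0 : Fin d, ω k0 l0 ≠ 0 ∧ k0 < l0 := by
    by_contra hcon
    push Not at hcon
    have h1 : ∀ k l, ω k l = 0 := by
      intro k l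
      rcases lt_trichotomy k l with h | h | h
      · by_contra h2
        exact absurd h (not_lt.2 (hcon k l h2))
      · rw [h]; exact hω.1 _
      · by_contra h2
        have h3 : ω l k ≠ 0 := by
          rw [hω.2 l k, neg_ne_zero]; exact h2
        exact absurd h (not_lt.2 (hcon l k h3))
    have h2 : ω = 0 := by ext k l; exact h1 k l
    haveI : Nonempty (Fin d) := ⟨⟨0, hd⟩⟩
    rw [h2, Matrix.det_zero] at hdet
    exact not_isUnit_zero hdet
  -- the free coordinates
  let Qs : Finset (Fin m) := (Finset.univ.image piv)ᶜ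
  obtain ⟨m', hm'⟩ : ∃ m', m' = Qs.card := ⟨_, rfl⟩
  have hcard : m' = m - Fintype.card ι * d := by
    rw [hm', Finset.card_compl, Finset.card_image_of_injective _ hpiv, Finset.card_univ, Fintype.card_fin,
      Fintype.card_prod, Fintype.card_fin]
  let e := Qs.orderEmbOfFin hm'.symm
  have he : ∀ j', ∀ κ, e j' ≠ piv κ := by
    intro j' κ h1
    have h2 := Finset.orderEmbOfFin_mem Qs hm'.symm j'
    rw [Finset.mem_compl] at h2
    exact h2 (Finset.mem_image.2 ⟨κ, Finset.mem_univ _, h1.symm⟩)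
  let Em : Matrix (Fin m) (Fin m') R := Matrix.of fun j j' => if j = e j' then 1 else 0
  let A : Fin d → Matrix (Fin m) (Fin D) R := fun k => Em * Sh R m' D d k
  let VN : Matrix ((Fin m × Fin d) ⊕ Fin h) (Fin D) R :=
    Matrix.of fun p t => Sum.elim (fun jk : Fin m × Fin d => A jk.2 jk.1 t) (fun _ => 0) p
  let YN : Fin d → Matrix (Fin m) (Fin D) R := fun k =>
    Matrix.of fun j t => -∑ k', ω⁻¹ k k' * (b * VN) (Sum.inl (j, k')) t
  have hvec : ∀ a : Fin D → R, vec h (fun k => A k *ᵥ a) = VN *ᵥ a := by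
    intro a
    funext p
    rcases p with p | p
    · rfl
    · have : vec h (fun k => A k *ᵥ a) (Sum.inr p) = 0 := rfl
      rw [this]
      simp only [mulVec, dotProduct, VN, Matrix.of_apply, Sum.elim_inr, zero_mul, Finset.sum_const_zero]
  have hyy : ∀ (a : Fin D → R) (k : Fin d), yy ω b (fun k => A k *ᵥ a) k = YN k *ᵥ a := by
    intro a k
    funext j
    simp only [yy, hvec, Matrix.mulVec_mulVec]
    simp only [YN, mulVec, dotProduct, Matrix.of_apply, neg_mul, Finset.sum_neg_distrib, Finset.sum_mul,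
      Finset.mul_sum, neg_inj]
    rw [Finset.sum_comm]
    exact Finset.sum_congr rfl fun _ _ => Finset.sum_congr rfl fun _ _ => by ring
  let x0 : Σ κ' : Fin d, Fin (κ' : ℕ) := ⟨l0, ⟨k0, hlt0⟩⟩
  obtain ⟨a, ha, hq, hl⟩ := hz {p : Σ κ' : Fin d, Fin (κ' : ℕ) // p ≠ x0} ((ι × Fin d × Fin d) ⊕ Fin h)
    (by
      have h1 : Fintype.card {p : Σ κ' : Fin d, Fin (κ' : ℕ) // p ≠ x0} <
          Fintype.card (Σ κ' : Fin d, Fin (κ' : ℕ)) := Fintype.card_subtype_lt (x := x0) (by simp)
      rw [Fintype.card_sigma] at h1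
      simp only [Fintype.card_fin] at h1
      rw [Fin.sum_univ_eq_sum_range (fun i => i) d, Finset.sum_range_id] at h1
      omega)
    (by
      rw [Fintype.card_sum, Fintype.card_prod, Fintype.card_prod, Fintype.card_fin, Fintype.card_fin])
    (fun p => (YN (Fin.castLE p.1.1.2.le p.1.2))ᵀ * A p.1.1 -
      (YN p.1.1)ᵀ * A (Fin.castLE p.1.1.2.le p.1.2))
    (Sum.elim (fun q => x q.1 q.2.1 ᵥ* YN q.2.2 - yy ω b (x q.1) q.2.1 ᵥ* A q.2.2)
      (fun l t => (b * VN) (Sum.inr l) t))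
  have hE : ∀ k j', (A k *ᵥ a) (e j') = SX m' D d a k j' := by
    intro k j'
    rw [← Matrix.mulVec_mulVec]
    simp only [mulVec, dotProduct, Em, Matrix.of_apply, ite_mul, one_mul, zero_mul]
    rw [Finset.sum_eq_single j']
    · rw [if_pos rfl]; rfl
    · intro j'' _ h1
      rw [if_neg (fun h2 => h1 (e.injective h2).symm)]
    · intro h1; exact absurd (Finset.mem_univ _) h1
  have hE0 : ∀ k κ, (A k *ᵥ a) (piv κ) = 0 := by
    intro k κ
    rw [← Matrix.mulVec_mulVec]
    simp only [mulVec, dotProduct, Em, Matrix.of_apply, ite_mul, one_mul, zero_mul]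
    refine Finset.sum_eq_zero fun j' _ => ?_
    rw [if_neg (fun h2 => he j' κ h2.symm)]
  -- the quadratic equations
  have hquad : ∀ k l, k < l → (k, l) ≠ (k0, l0) → (YN k *ᵥ a) ⬝ᵥ (A l *ᵥ a) = (YN l *ᵥ a) ⬝ᵥ (A k *ᵥ a) := by
    intro k l hlt hne
    have h1 := hq ⟨⟨l, ⟨k, hlt⟩⟩, fun h2 => hne (by
      have h3 : l = l0 := congrArg Sigma.fst h2
      subst h3
      have h4 := eq_of_heq (Sigma.mk.inj h2).2
      have h5 := congrArg Fin.val h4
      simp only at h5
      rw [Prod.mk.injEq]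
      exact ⟨Fin.ext h5, rfl⟩)⟩
    simp only at h1
    have h2 : (Fin.castLE l.2.le ⟨(k : ℕ), hlt⟩ : Fin d) = k := rfl
    rw [h2, Matrix.sub_mulVec, dotProduct_sub, sub_eq_zero, bil, bil] at h1
    exact h1
  have hself : ∀ k l, (YN k *ᵥ a) ⬝ᵥ (A l *ᵥ a) = (YN l *ᵥ a) ⬝ᵥ (A k *ᵥ a) := by
    have h1 : ∀ k l, (k, l) ≠ (k0, l0) → (k, l) ≠ (l0, k0) →
        (YN k *ᵥ a) ⬝ᵥ (A l *ᵥ a) = (YN l *ᵥ a) ⬝ᵥ (A k *ᵥ a) := by
      intro k l h2 h3
      rcases lt_trichotomy k l with h4 | h4 | h4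
      · exact hquad k l h4 h2
      · rw [h4]
      · refine (hquad l k h4 fun h5 => h3 ?_).symm
        obtain ⟨rfl, rfl⟩ := Prod.mk.inj h5
        rfl
    have h2 := last_eq hω hdet b hb (fun k => A k *ᵥ a) k0 l0 h0 (fun k l h3 h4 => by
      rw [hyy, hyy]; exact h1 k l h3 h4)
    rw [hyy, hyy] at h2
    intro k l
    by_cases h3 : (k, l) = (k0, l0)
    · obtain ⟨rfl, rfl⟩ := Prod.mk.inj h3
      exact h2
    · by_cases h4 : (k, l) = (l0, k0)
      · obtain ⟨rfl, rfl⟩ := Prod.mk.inj h4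
        exact h2.symm
      · exact h1 k l h3 h4
  -- the mixed equations
  have hmix : ∀ (i : ι) (l k : Fin d), (YN k *ᵥ a) ⬝ᵥ x i l = yy ω b (x i) l ⬝ᵥ (A k *ᵥ a) := by
    intro i l k
    have h1 := hl (Sum.inl (i, l, k))
    simp only [Sum.elim_inl] at h1
    rw [sub_dotProduct, sub_eq_zero, ← Matrix.dotProduct_mulVec, ← Matrix.dotProduct_mulVec] at h1
    rw [dotProduct_comm]
    exact h1
  refine ⟨fun o => Option.elim o (fun k => A k *ᵥ a) x, ?_, ?_, ?_⟩
  · obtain ⟨col, hcol, hcolu⟩ := exists_minor (m := m') (D := D) (r := d) (by omega) a ha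
    refine ⟨fun q => Option.elim q.1 (e (col q.2)) (fun i => piv (i, q.2)), ?_, ?_⟩
    · rintro ⟨_ | i, k⟩ ⟨_ | i', k'⟩ h1
      · simp only [Option.elim_none] at h1
        rw [hcol (e.injective h1)]
      · simp only [Option.elim_none, Option.elim_some] at h1
        exact absurd h1 (he _ _)
      · simp only [Option.elim_none, Option.elim_some] at h1
        exact absurd h1.symm (he _ _)
      · simp only [Option.elim_some] at h1
        obtain ⟨rfl, rfl⟩ := Prod.mk.inj (hpiv h1)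
        rfl
    · rw [← Matrix.det_submatrix_equiv_self (sg ι d)]
      have h1 : (Matrix.of fun κ κ' : Option ι × Fin d => Option.elim κ.1 (fun k => A k *ᵥ a) x κ.2
          (Option.elim κ'.1 (e (col κ'.2)) (fun i => piv (i, κ'.2))) :
            Matrix (Option ι × Fin d) (Option ι × Fin d) R).submatrix (sg ι d) (sg ι d) =
          Matrix.fromBlocks (Matrix.of fun κ κ' => SX m' D d a κ (col κ')) 0
            (Matrix.of fun κ κ' => x κ.1 κ.2 (e (col κ')))
            (Matrix.of fun κ κ' => x κ.1 κ.2 (piv κ')) := by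
        ext p q
        rcases p with p | p <;> rcases q with q | q
        · exact hE _ _
        · exact hE0 _ _
        · rfl
        · rfl
      rw [h1, Matrix.det_fromBlocks_zero₁₂]
      exact hcolu.mul hu
  · rintro (_ | i) k (_ | i') k'
    · simp only [Option.elim_none]
      rw [hyy, hyy]
      exact hself k k'
    · simp only [Option.elim_none, Option.elim_some]
      rw [hyy]
      exact hmix i' k' k
    · simp only [Option.elim_none, Option.elim_some]
      rw [hyy]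
      exact (hmix i k k').symm
    · exact hx.sym i k i' k'
  · rintro (_ | i) l
    · simp only [Option.elim_none]
      rw [hvec, Matrix.mulVec_mulVec]
      exact hl (Sum.inr l)
    · exact hx.lin i l

end

section

variable {R : Type} [CommRing R] [IsDomain R] [IsPrincipalIdealRing R] {K : Type} [Field K]
  [Algebra R K]

/-- the matrix `S` of a family of kernel vectors -/
theorem finish (hinj : Function.Injective (algebraMap R K)) {m d h s : ℕ} (hd : 0 < d)
    (ω : Matrix (Fin d) (Fin d) R) (hω : Alt ω) (hdet : IsUnit ω.det)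
    (b : Matrix ((Fin m × Fin d) ⊕ Fin h) ((Fin m × Fin d) ⊕ Fin h) R) (hb : Alt b) {ι : Type}
    [Fintype ι] [DecidableEq ι] (hs : m * d + h ≤ 2 * s + 1 + Fintype.card ι)
    (x : ι → Fin d → Fin m → R) (hx : Fam ω b ι x) :
    ∃ S : Matrix (Fin m) (Fin m) R, Sᵀ = S ∧ ∃ e f : Fin s → (Fin m × Fin d) ⊕ Fin h → R,
      b + T h S ω = ∑ i, wdg (e i) (f i) := by
  classical
  obtain ⟨piv, hpiv, hu⟩ := hx.piv
  let X : Matrix (ι × Fin d) (Fin m) R := Matrix.of fun κ j => x κ.1 κ.2 j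
  let Y : Matrix (ι × Fin d) (Fin m) R := Matrix.of fun κ j => yy ω b (x κ.1) κ.2 j
  obtain ⟨P, hP⟩ : ∃ P : Matrix (Fin m) (ι × Fin d) R, X * P = 1 := by
    let E : Matrix (Fin m) (ι × Fin d) R := Matrix.of fun j κ => if j = piv κ then 1 else 0
    have hE : X * E = Matrix.of fun κ κ' => x κ.1 κ.2 (piv κ') := by
      ext κ κ'
      rw [Matrix.mul_apply]
      simp only [E, X, Matrix.of_apply, mul_ite, mul_one, mul_zero, Finset.sum_ite_eq', Finset.mem_univ,
        if_true]
    refine ⟨E * (Matrix.of fun κ κ' : ι × Fin d => x κ.1 κ.2 (piv κ'))⁻¹, ?_⟩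
    rw [← Matrix.mul_assoc, hE, Matrix.mul_nonsing_inv _ hu]
  have hsym : Y * Xᵀ = X * Yᵀ := by
    ext κ κ'
    have e1 : (Y * Xᵀ) κ κ' = yy ω b (x κ.1) κ.2 ⬝ᵥ x κ'.1 κ'.2 := rfl
    have e2 : (X * Yᵀ) κ κ' = x κ.1 κ.2 ⬝ᵥ yy ω b (x κ'.1) κ'.2 := rfl
    rw [e1, e2, dotProduct_comm (x κ.1 κ.2)]
    exact hx.sym _ _ _ _
  obtain ⟨S, hS, hXS⟩ := sym_solve' X Y P hP hsym
  refine ⟨S, hS, ?_⟩
  have hS' : ∀ i j, S i j = S j i := fun i j => congrFun (congrFun hS j) i
  -- the kernel vectors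
  have hker : ∀ i : ι, (b + T h S ω) *ᵥ vec h (x i) = 0 := by
    intro i
    rw [Matrix.add_mulVec]
    funext p
    rw [Pi.add_apply, Pi.zero_apply]
    rcases p with ⟨j, k⟩ | p
    · have h1 : (T h S ω *ᵥ vec h (x i)) (Sum.inl (j, k)) = ∑ k', ω k k' * yy ω b (x i) k' j := by
        rw [mulVec, dotProduct, Fintype.sum_sum_type, Fintype.sum_prod_type]
        have h2 : ∑ l : Fin h, T h S ω (Sum.inl (j, k)) (Sum.inr l) * vec h (x i) (Sum.inr l) = 0 := by
          refine Finset.sum_eq_zero fun l _ => ?_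
          rw [T_inl_inr, zero_mul]
        rw [h2, add_zero, Finset.sum_comm]
        refine Finset.sum_congr rfl fun k' _ => ?_
        have e3 : yy ω b (x i) k' j = (X * S) (i, k') j := by rw [hXS]; rfl
        rw [e3, Matrix.mul_apply, Finset.mul_sum]
        refine Finset.sum_congr rfl fun j' _ => ?_
        rw [T_inl, hS' j j']
        have e4 : vec h (x i) (Sum.inl (j', k')) = X (i, k') j' := rfl
        rw [e4]
        ring
      rw [h1, yy_inv hdet b (x i) k j]
      exact neg_add_cancel _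
    · have h1 : (T h S ω *ᵥ vec h (x i)) (Sum.inr p) = 0 := by
        rw [mulVec, dotProduct]
        refine Finset.sum_eq_zero fun l _ => ?_
        rw [T_inr, zero_mul]
      rw [h1, add_zero]
      exact hx.lin i p
  -- independence over the field
  let φ := algebraMap R K
  let v : ι → (Fin m × Fin d) ⊕ Fin h → K := fun i p => φ (vec h (x i) p)
  have hv : LinearIndependent K v := by
    rw [Fintype.linearIndependent_iff]
    intro g hg i0
    have k0 : Fin d := ⟨0, hd⟩
    have h1 : ∀ j : Fin m, ∑ i, g i * φ (X (i, k0) j) = 0 := by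
      intro j
      have h2 := congrFun hg (Sum.inl (j, k0))
      simp only [Finset.sum_apply, Pi.smul_apply, smul_eq_mul, v, Pi.zero_apply] at h2
      exact h2
    have h3 : ∑ j, (∑ i, g i * φ (X (i, k0) j)) * φ (P j (i0, k0)) = 0 := by
      refine Finset.sum_eq_zero fun j _ => ?_
      rw [h1, zero_mul]
    simp only [Finset.sum_mul] at h3
    rw [Finset.sum_comm] at h3
    have h4 : ∀ i, ∑ j, g i * φ (X (i, k0) j) * φ (P j (i0, k0)) = g i * (if i = i0 then 1 else 0) := by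
      intro i
      have h5 := congrArg φ (congrFun (congrFun hP (i, k0)) (i0, k0))
      rw [Matrix.mul_apply, map_sum] at h5
      have h6 : φ ((1 : Matrix (ι × Fin d) (ι × Fin d) R) (i, k0) (i0, k0)) = if i = i0 then 1 else 0 := by
        rw [Matrix.one_apply]
        by_cases hi : i = i0
        · subst hi; rw [if_pos rfl, if_pos rfl, map_one]
        · rw [if_neg hi, if_neg, map_zero]
          intro h7
          exact hi (congrArg Prod.fst h7)
      rw [← h6, ← h5, Finset.mul_sum]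
      refine Finset.sum_congr rfl fun j _ => ?_
      rw [map_mul, mul_assoc]
    simp only [h4, mul_ite, mul_one, mul_zero, Finset.sum_ite_eq', Finset.mem_univ, if_true] at h3
    exact h3
  -- the rank
  set B := (b + T h S ω).map φ with hB
  have hBv : ∀ i, B *ᵥ v i = 0 := by
    intro i
    funext p
    have h1 := congrArg φ (congrFun (hker i) p)
    rw [Pi.zero_apply, map_zero] at h1
    rw [Pi.zero_apply, ← h1]
    simp only [mulVec, dotProduct, map_sum, map_mul, v, hB, Matrix.map_apply]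
  have hle : Fintype.card ι ≤ Module.finrank K (LinearMap.ker B.mulVecLin) := by
    have h1 : LinearIndependent K (fun i => (⟨v i, hBv i⟩ : LinearMap.ker B.mulVecLin)) := by
      refine LinearIndependent.of_comp (LinearMap.ker B.mulVecLin).subtype ?_
      exact hv
    exact h1.fintype_card_le_finrank
  have hcard : Fintype.card ((Fin m × Fin d) ⊕ Fin h) = m * d + h := by
    rw [Fintype.card_sum, Fintype.card_prod, Fintype.card_fin, Fintype.card_fin, Fintype.card_fin]
  have h2 := LinearMap.finrank_range_add_finrank_ker B.mulVecLin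
  rw [Module.finrank_fintype_fun_eq_card, hcard] at h2
  refine decomp (K := K) hinj s (b + T h S ω) ?_ ?_
  · have hT := T_alt (h := h) S hS ω hω
    exact ⟨fun u => by rw [Matrix.add_apply, hb.1, hT.1, add_zero], fun u v => by
      rw [Matrix.add_apply, Matrix.add_apply, hb.2 u v, hT.2 u v]; ring⟩
  · change B.rank ≤ _
    rw [Matrix.rank]
    omega

/-- **Many kernel vectors.** -/
theorem greedy [IsLocalRing R] (hinj : Function.Injective (algebraMap R K)) {m d h c s : ℕ}
    (hd : 0 < d) (hs : m * d + h ≤ 2 * s + 1 + c)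
    (hz : ∀ i < c, ∃ D, D + d + i * d ≤ m + 1 ∧ HasZeros R D (d * (d - 1) / 2 - 1) (i * (d * d) + h))
    (ω : Matrix (Fin d) (Fin d) R) (hω : Alt ω) (hdet : IsUnit ω.det)
    (b : Matrix ((Fin m × Fin d) ⊕ Fin h) ((Fin m × Fin d) ⊕ Fin h) R) (hb : Alt b) :
    ∃ S : Matrix (Fin m) (Fin m) R, Sᵀ = S ∧ ∃ e f : Fin s → (Fin m × Fin d) ⊕ Fin h → R,
      b + T h S ω = ∑ i, wdg (e i) (f i) := by
  have key : ∀ i ≤ c, ∃ (ι : Type) (_ : Fintype ι) (_ : DecidableEq ι), Fintype.card ι = i ∧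
      ∃ x : ι → Fin d → Fin m → R, Fam ω b ι x := by
    intro i
    induction i with
    | zero =>
      intro _
      exact ⟨Fin 0, inferInstance, inferInstance, Fintype.card_fin 0, _, fam_zero ω b⟩
    | succ i ih =>
      intro hi
      obtain ⟨ι, hι, hι', hcard, x, hx⟩ := ih (by omega)
      obtain ⟨D, hD, hzD⟩ := hz i (by omega)
      obtain ⟨x', hx'⟩ := one_more hω hdet hd b hb (by rw [hcard]; exact hzD) (by rw [hcard]; exact hD) x hx
      exact ⟨Option ι, inferInstance, inferInstance, by rw [Fintype.card_option, hcard], x', hx'⟩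
  obtain ⟨ι, hι, hι', hcard, x, hx⟩ := key c le_rfl
  exact finish hinj hd ω hω hdet b hb (by rw [hcard]; exact hs) x hx

end

end Pool.Agent.W5h66.PW
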