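import Mathlib
import Pool.Agent.W5h66.PW.Core

/-! Systems of quadratic forms. -/

set_option autoImplicit false
set_option linter.all false

open Matrix

noncomputable section

namespace Pool.Agent.W5h66.PW

/-- prime fields, by the theorem of Chevalley and Warning -/
theorem hasZeros_zmod (p : ℕ) [Fact p.Prime] {D q l : ℕ} (h : 2 * q + l < D) :
    HasZeros (ZMod p) D q l := by
  classical
  intro ι κ _ _ hq hl M N
  let f : ι ⊕ κ → MvPolynomial (Fin D) (ZMod p) := Sum.elim
    (fun i => ∑ s, ∑ t, MvPolynomial.C (M i s t) * MvPolynomial.X s * MvPolynomial.X t)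
    (fun j => ∑ t, MvPolynomial.C (N j t) * MvPolynomial.X t)
  have hdeg : ∑ x, (f x).totalDegree < Fintype.card (Fin D) := by
    rw [Fintype.sum_sum_type, Fintype.card_fin]
    have h1 : ∑ i : ι, (f (Sum.inl i)).totalDegree ≤ ∑ _i : ι, 2 := by
      refine Finset.sum_le_sum fun i _ => ?_
      refine MvPolynomial.totalDegree_finsetSum_le fun s _ => ?_
      refine MvPolynomial.totalDegree_finsetSum_le fun t _ => ?_
      refine (MvPolynomial.totalDegree_mul _ _).trans ?_
      refine (add_le_add (MvPolynomial.totalDegree_mul _ _) le_rfl).trans ?_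
      rw [MvPolynomial.totalDegree_C, MvPolynomial.totalDegree_X, MvPolynomial.totalDegree_X]
    have h2 : ∑ j : κ, (f (Sum.inr j)).totalDegree ≤ ∑ _j : κ, 1 := by
      refine Finset.sum_le_sum fun i _ => ?_
      refine MvPolynomial.totalDegree_finsetSum_le fun s _ => ?_
      refine (MvPolynomial.totalDegree_mul _ _).trans ?_
      rw [MvPolynomial.totalDegree_C, MvPolynomial.totalDegree_X]
    rw [Finset.sum_const, Finset.card_univ, smul_eq_mul] at h1 h2
    omega
  have hdvd := char_dvd_card_solutions_of_fintype_sum_lt p hdeg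
  let zero : {x : Fin D → ZMod p // ∀ i, MvPolynomial.eval x (f i) = 0} := ⟨0, by
    rintro (i | j)
    · simp [f]
    · simp [f]⟩
  have hcard : 1 < Fintype.card {x : Fin D → ZMod p // ∀ i, MvPolynomial.eval x (f i) = 0} := by
    have hpos : 0 < Fintype.card {x : Fin D → ZMod p // ∀ i, MvPolynomial.eval x (f i) = 0} :=
      Fintype.card_pos_iff.2 ⟨zero⟩
    exact lt_of_lt_of_le (Fact.out : p.Prime).one_lt (Nat.le_of_dvd hpos hdvd)
  obtain ⟨⟨a, ha⟩, hne⟩ := Fintype.exists_ne_of_one_lt_card hcard zero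
  have ha0 : a ≠ 0 := fun h => hne (Subtype.ext h)
  obtain ⟨t, ht⟩ := Function.ne_iff.1 ha0
  refine ⟨a, ⟨t, isUnit_iff_ne_zero.2 ht⟩, fun i => ?_, fun j => ?_⟩
  · rw [← ha (Sum.inl i)]
    simp only [f, Sum.elim_inl, map_sum, map_mul, MvPolynomial.eval_C, MvPolynomial.eval_X, dotProduct,
      mulVec, Finset.mul_sum]
    exact Finset.sum_congr rfl fun s _ => Finset.sum_congr rfl fun t _ => by ring
  · rw [← ha (Sum.inr j)]
    simp only [f, Sum.elim_inr, map_sum, map_mul, MvPolynomial.eval_C, MvPolynomial.eval_X, dotProduct]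

/-- systems of `q` quadratic forms on spaces of dimension at least `N` have common zeros -/
def Sys (F : Type) [Field F] (q N : ℕ) : Prop :=
  ∀ (V : Type) [AddCommGroup V] [Module F V] [FiniteDimensional F V], N ≤ Module.finrank F V →
    ∀ Q : Fin q → QuadraticForm F V, ∃ v : V, v ≠ 0 ∧ ∀ i, Q i v = 0

section

variable {F : Type} [Field F]

theorem sys_zero : Sys F 0 1 := by
  intro V _ _ _ hV Q
  have : 0 < Module.finrank F V := by omega
  rw [Module.finrank_pos_iff] at this
  obtain ⟨v, hv⟩ := exists_ne (0 : V)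
  exact ⟨v, hv, fun i => i.elim0⟩

theorem isotropic_subspace {u : ℕ} (hu : Sys F 1 u) (V : Type) [AddCommGroup V] [Module F V]
    [FiniteDimensional F V] (Q : QuadraticForm F V) : ∀ s : ℕ, 2 * s + u ≤ Module.finrank F V + 2 →
    ∃ U : Submodule F V, Module.finrank F U = s ∧ ∀ x ∈ U, Q x = 0 := by
  intro s
  induction s with
  | zero =>
    intro _
    refine ⟨⊥, finrank_bot F V, fun x hx => ?_⟩
    rw [(Submodule.mem_bot F).1 hx, QuadraticMap.map_zero]
  | succ s ih =>
    intro hs
    obtain ⟨U, hU, hUQ⟩ := ih (by omega)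
    let φ : V →ₗ[F] (U →ₗ[F] F) := (LinearMap.lcomp F F U.subtype) ∘ₗ Q.polarBilin
    have hφ : ∀ v (x : U), φ v x = QuadraticMap.polar Q v x := fun v x => rfl
    have hrange : Module.finrank F (LinearMap.range φ) ≤ s := by
      refine (Submodule.finrank_le _).trans ?_
      rw [Module.finrank_linearMap, Module.finrank_self, mul_one, hU]
    have h1 := LinearMap.finrank_range_add_finrank_ker φ
    obtain ⟨U', hU'⟩ := U.exists_isCompl
    have h2 := Submodule.finrank_add_eq_of_isCompl hU'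
    have h3 := Submodule.finrank_sup_add_finrank_inf_eq (LinearMap.ker φ) U'
    have h4 : Module.finrank F ↥(LinearMap.ker φ ⊔ U') ≤ Module.finrank F V := Submodule.finrank_le _
    have h5 : u ≤ Module.finrank F ↥(LinearMap.ker φ ⊓ U') := by omega
    obtain ⟨w, hw0, hw⟩ := hu ↥(LinearMap.ker φ ⊓ U') h5
      (fun _ => Q.comp (LinearMap.ker φ ⊓ U').subtype)
    have hwQ : Q (w : V) = 0 := hw 0
    have hw0' : (w : V) ≠ 0 := fun h => hw0 (Subtype.ext h)
    have hwU' : (w : V) ∈ U' := w.2.2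
    have hwker : ∀ x ∈ U, QuadraticMap.polar Q (w : V) x = 0 := by
      intro x hx
      have h6 : φ (w : V) = 0 := w.2.1
      rw [← hφ (w : V) ⟨x, hx⟩, h6]
      rfl
    refine ⟨U ⊔ Submodule.span F {(w : V)}, ?_, ?_⟩
    · have h6 := Submodule.finrank_sup_add_finrank_inf_eq U (Submodule.span F {(w : V)})
      have h7 : U ⊓ Submodule.span F {(w : V)} = ⊥ := by
        rw [eq_bot_iff]
        intro x hx
        have hxU' : x ∈ U' := (Submodule.span_singleton_le_iff_mem _ _).2 hwU' hx.2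
        have : x ∈ U ⊓ U' := ⟨hx.1, hxU'⟩
        rwa [hU'.inf_eq_bot] at this
      rw [h7, finrank_bot, hU, finrank_span_singleton hw0'] at h6
      omega
    · intro x hx
      obtain ⟨y, hy, z, hz, rfl⟩ := Submodule.mem_sup.1 hx
      obtain ⟨c, rfl⟩ := Submodule.mem_span_singleton.1 hz
      have h6 : QuadraticMap.polar Q y (c • (w : V)) = 0 := by
        rw [QuadraticMap.polar_smul_right, QuadraticMap.polar_comm, hwker y hy, smul_zero]
      have h7 : Q (y + c • (w : V)) = Q y + Q (c • (w : V)) + QuadraticMap.polar Q y (c • (w : V)) := by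
        rw [QuadraticMap.polar]; abel
      rw [h7, h6, hUQ y hy, QuadraticMap.map_smul, hwQ, smul_zero, add_zero, add_zero]

theorem sys_succ {q N u : ℕ} (hu : Sys F 1 u) (hq : Sys F q N) : Sys F (q + 1) (2 * N + u) := by
  intro V _ _ _ hV Q
  obtain ⟨U, hU, hUQ⟩ := isotropic_subspace hu V (Q 0) N (by omega)
  obtain ⟨v, hv0, hv⟩ := hq U hU.ge (fun i => (Q i.succ).comp U.subtype)
  refine ⟨v, fun h => hv0 (Subtype.ext h), fun i => ?_⟩
  refine Fin.cases ?_ (fun j => ?_) i
  · exact hUQ _ v.2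
  · exact hv j

/-- the number of variables -/
def Tn (u : ℕ) : ℕ → ℕ
  | 0 => 1
  | q + 1 => 2 * Tn u q + u

theorem sys_all {u : ℕ} (hu : Sys F 1 u) : ∀ q : ℕ, Sys F q (Tn u q)
  | 0 => sys_zero
  | q + 1 => sys_succ hu (sys_all hu q)

theorem Tn_eq (u : ℕ) : ∀ q : ℕ, Tn u q + u = (u + 1) * 2 ^ q
  | 0 => by simp [Tn, add_comm]
  | q + 1 => by
    have h := Tn_eq u q
    have : Tn u (q + 1) + u = 2 * (Tn u q + u) := by
      rw [Tn]; ring
    rw [this, h, pow_succ]; ring

theorem Tn_mono (u : ℕ) {q q' : ℕ} (h : q ≤ q') : Tn u q ≤ Tn u q' := by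
  refine monotone_nat_of_le_succ (fun n => ?_) h
  rw [Tn]; omega

end

end Pool.Agent.W5h66.PW
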