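import Mathlib
import Pool.Agent.W5h66.PW.Sys

/-! Quadratic forms over the field of `p`-adic numbers. -/

set_option autoImplicit false
set_option linter.all false

open Matrix

noncomputable section

namespace Pool.Agent.W5h66.PW

section

variable {p : ℕ} [hp : Fact p.Prime]

theorem sq_of_close (u y : ℤ_[p]) (h : ‖y ^ 2 - u‖ < ‖2 * y‖ ^ 2) : ∃ z : ℤ_[p], z ^ 2 = u := by
  have h1 : (Polynomial.X ^ 2 - Polynomial.C u : Polynomial ℤ_[p]).aeval y = y ^ 2 - u := by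
    simp
  have h2 : (Polynomial.derivative (Polynomial.X ^ 2 - Polynomial.C u : Polynomial ℤ_[p])).aeval y =
      2 * y := by
    rw [Polynomial.derivative_sub, Polynomial.derivative_X_pow, Polynomial.derivative_C, sub_zero]
    simp
  obtain ⟨z, hz, _⟩ := hensels_lemma (F := (Polynomial.X ^ 2 - Polynomial.C u : Polynomial ℤ_[p]))
    (a := y) (by rw [h1, h2]; exact h)
  refine ⟨z, ?_⟩
  have h3 : (Polynomial.X ^ 2 - Polynomial.C u : Polynomial ℤ_[p]).aeval z = z ^ 2 - u := by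
    simp
  rw [h3, sub_eq_zero] at hz
  exact hz

theorem isUnit_iff_toZMod (x : ℤ_[p]) : IsUnit x ↔ PadicInt.toZMod x ≠ 0 := by
  constructor
  · intro h
    exact (h.map PadicInt.toZMod).ne_zero
  · intro hx
    by_contra h
    apply hx
    have h1 : x ∈ IsLocalRing.maximalIdeal ℤ_[p] := h
    rw [← PadicInt.ker_toZMod] at h1
    exact h1

theorem toZMod_val (w : ZMod p) : PadicInt.toZMod (((w.val : ℕ) : ℤ_[p])) = w := by
  haveI : NeZero p := ⟨hp.out.ne_zero⟩
  rw [map_natCast]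
  exact ZMod.natCast_zmod_val w

/-- lifting of square roots, odd primes -/
theorem sq_lift (h2 : p ≠ 2) (u : ℤ_[p]) (w : ZMod p) (hw : w ≠ 0) (h : w ^ 2 = PadicInt.toZMod u) :
    ∃ z : ℤ_[p], z ^ 2 = u := by
  refine sq_of_close u ((w.val : ℕ) : ℤ_[p]) ?_
  have h3 : ‖(2 : ℤ_[p]) * ((w.val : ℕ) : ℤ_[p])‖ = 1 := by
    rw [← PadicInt.isUnit_iff, isUnit_iff_toZMod, map_mul, toZMod_val]
    refine mul_ne_zero ?_ hw
    rw [map_ofNat]
    have h4 : ((2 : ℕ) : ZMod p) ≠ 0 := by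
      intro h5
      rw [ZMod.natCast_eq_zero_iff] at h5
      exact h2 ((Nat.prime_dvd_prime_iff_eq hp.out Nat.prime_two).1 h5)
    exact_mod_cast h4
  rw [h3, one_pow]
  rw [← PadicInt.mem_nonunits]
  intro h5
  have h6 := (isUnit_iff_toZMod _).1 h5
  apply h6
  rw [map_sub, map_pow, toZMod_val, h, sub_self]

/-- square roots modulo eight -/
theorem sq_two (u : ℤ_[2]) (h : PadicInt.toZModPow 3 u = 1) : ∃ z : ℤ_[2], z ^ 2 = u := by
  refine sq_of_close u 1 ?_
  have h1 : u - 1 ∈ RingHom.ker (PadicInt.toZModPow (p := 2) 3) := by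
    rw [RingHom.mem_ker, map_sub, h, map_one, sub_self]
  rw [PadicInt.ker_toZModPow, ← PadicInt.norm_le_pow_iff_mem_span_pow] at h1
  have h2 : ‖(2 : ℤ_[2])‖ = 2⁻¹ := by
    have := PadicInt.norm_p (p := 2)
    exact_mod_cast this
  rw [mul_one, h2, one_pow, norm_sub_rev]
  refine lt_of_le_of_lt h1 ?_
  norm_num

/-- nonzero numbers are powers of `p` times units -/
theorem exists_unit (x : ℚ_[p]) (hx : x ≠ 0) : ∃ (k : ℤ) (u : ℤ_[p]), IsUnit u ∧
    x = (p : ℚ_[p]) ^ k * (u : ℚ_[p]) := by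
  have hp0 : (p : ℚ_[p]) ≠ 0 := by
    exact_mod_cast hp.out.ne_zero
  have hn : ‖x * (p : ℚ_[p]) ^ (-x.valuation)‖ = 1 := by
    rw [norm_mul, Padic.norm_eq_zpow_neg_valuation hx, norm_zpow, Padic.norm_p, _root_.inv_zpow', neg_neg,
      ← zpow_add₀ (by exact_mod_cast hp.out.ne_zero), neg_add_cancel, zpow_zero]
  refine ⟨x.valuation, ⟨x * (p : ℚ_[p]) ^ (-x.valuation), hn.le⟩, ?_, ?_⟩
  · rw [PadicInt.isUnit_iff]
    exact hn
  · show x = (p : ℚ_[p]) ^ x.valuation * (x * (p : ℚ_[p]) ^ (-x.valuation))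
    rw [mul_left_comm, ← zpow_add₀ hp0, add_neg_cancel, zpow_zero, mul_one]

theorem same_of (x y : ℚ_[p]) {k1 k2 : ℤ} {u1 u2 : ℤ_[p]} (hu1 : IsUnit u1) (hu2 : IsUnit u2)
    (hx : x = (p : ℚ_[p]) ^ k1 * (u1 : ℚ_[p])) (hy : y = (p : ℚ_[p]) ^ k2 * (u2 : ℚ_[p]))
    (hk : Even (k2 - k1)) (hz : ∃ z : ℤ_[p], z ^ 2 = u1 * u2) : ∃ s : ℚ_[p], s ≠ 0 ∧ y = x * s ^ 2 := by
  have hp0 : (p : ℚ_[p]) ≠ 0 := by
    exact_mod_cast hp.out.ne_zero
  obtain ⟨z, hz⟩ := hz
  obtain ⟨k, hk⟩ := hk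
  have h1 : (u1 : ℚ_[p]) ≠ 0 := fun h => hu1.ne_zero (Subtype.ext h)
  have h2 : (u2 : ℚ_[p]) ≠ 0 := fun h => hu2.ne_zero (Subtype.ext h)
  have hz' : (z : ℚ_[p]) ^ 2 = u1 * u2 := by exact_mod_cast congrArg (fun t : ℤ_[p] => (t : ℚ_[p])) hz
  have hz0 : (z : ℚ_[p]) ≠ 0 := by
    intro h
    rw [h] at hz'
    have : (u1 : ℚ_[p]) * u2 = 0 := by rw [← hz']; ring
    rcases mul_eq_zero.1 this with h | h
    · exact h1 h
    · exact h2 h
  refine ⟨(p : ℚ_[p]) ^ k * (z / u1), mul_ne_zero (zpow_ne_zero _ hp0) (div_ne_zero hz0 h1), ?_⟩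
  have h3 : k2 = k1 + k * 2 := by omega
  rw [hx, hy, mul_pow, div_pow, hz', h3, zpow_add₀ hp0, _root_.zpow_mul, zpow_ofNat]
  field_simp

end

/-- the square classes -/
theorem classes (p : ℕ) [hp : Fact p.Prime] : ∃ cl : ℚ_[p] → Fin 8, ∀ x y, x ≠ 0 → y ≠ 0 → cl x = cl y →
    ∃ s : ℚ_[p], s ≠ 0 ∧ y = x * s ^ 2 := by
  classical
  suffices hC : ∃ (C : Type) (_ : Fintype C), Fintype.card C ≤ 8 ∧ ∃ cl : ℚ_[p] → C, ∀ x y, x ≠ 0 → y ≠ 0 →
      cl x = cl y → ∃ s : ℚ_[p], s ≠ 0 ∧ y = x * s ^ 2 by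
    obtain ⟨C, _, hC, cl, hcl⟩ := hC
    refine ⟨fun x => Fin.castLE hC (Fintype.equivFin C (cl x)), fun x y hx hy h => hcl x y hx hy ?_⟩
    exact (Fintype.equivFin C).injective (Fin.castLE_injective hC h)
  have hex : ∀ x : ℚ_[p], ∃ (k : ℤ) (u : ℤ_[p]), IsUnit u ∧ (x ≠ 0 → x = (p : ℚ_[p]) ^ k * (u : ℚ_[p])) := by
    intro x
    by_cases hx : x = 0
    · exact ⟨0, 1, isUnit_one, fun h => absurd hx h⟩
    · obtain ⟨k, u, hu, h⟩ := exists_unit x hx
      exact ⟨k, u, hu, fun _ => h⟩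
  choose k u hu hxu using hex
  have hpar : ∀ x y : ℚ_[p], (decide (Even (k x)) = decide (Even (k y))) → Even (k y - k x) := by
    intro x y h
    rw [decide_eq_decide] at h
    rw [Int.even_sub]
    exact h.symm
  by_cases h2 : p = 2
  · subst h2
    refine ⟨Bool × (ZMod (2 ^ 3))ˣ, inferInstance, ?_, fun x => (decide (Even (k x)),
      Units.map (PadicInt.toZModPow (p := 2) 3).toMonoidHom (hu x).unit), fun x y hx hy h => ?_⟩
    · rw [Fintype.card_prod, Fintype.card_bool, ZMod.card_units_eq_totient]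
      decide
    · have h3 := hpar x y (congrArg Prod.fst h)
      have h4 := congrArg Prod.snd h
      refine same_of x y (hu x) (hu y) (hxu x hx) (hxu y hy) h3 (sq_two _ ?_)
      have h5 : ∀ r : (ZMod (2 ^ 3))ˣ, (r : ZMod (2 ^ 3)) * (r : ZMod (2 ^ 3)) = 1 := by decide
      have h6 : PadicInt.toZModPow (p := 2) 3 (u x) = PadicInt.toZModPow (p := 2) 3 (u y) :=
        congrArg Units.val h4
      rw [map_mul, ← h6]
      exact h5 (Units.map (PadicInt.toZModPow (p := 2) 3).toMonoidHom (hu x).unit)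
  · refine ⟨Bool × Bool, inferInstance, by decide, fun x => (decide (Even (k x)),
      decide (IsSquare (PadicInt.toZMod (u x)))), fun x y hx hy h => ?_⟩
    have h3 := hpar x y (congrArg Prod.fst h)
    have h4 := congrArg Prod.snd h
    simp only [decide_eq_decide] at h4
    have hx0 := (isUnit_iff_toZMod _).1 (hu x)
    have hy0 := (isUnit_iff_toZMod _).1 (hu y)
    have hsq : IsSquare (PadicInt.toZMod (u x) * PadicInt.toZMod (u y)) := by
      rw [← quadraticChar_one_iff_isSquare (mul_ne_zero hx0 hy0), map_mul]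
      by_cases h5 : IsSquare (PadicInt.toZMod (u x))
      · rw [(quadraticChar_one_iff_isSquare hx0).2 h5, (quadraticChar_one_iff_isSquare hy0).2 (h4.1 h5),
          one_mul]
      · have h6 : ringChar (ZMod p) ≠ 2 := by rwa [ZMod.ringChar_zmod_n]
        rw [quadraticChar_neg_one_iff_not_isSquare.2 h5,
          quadraticChar_neg_one_iff_not_isSquare.2 (fun h7 => h5 (h4.2 h7))]
        norm_num
    obtain ⟨w, hw⟩ := hsq
    refine same_of x y (hu x) (hu y) (hxu x hx) (hxu y hy) h3 (sq_lift h2 _ w ?_ ?_)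
    · rintro rfl
      rw [mul_zero] at hw
      exact mul_ne_zero hx0 hy0 hw
    · rw [map_mul, hw, sq]

/-- five squares -/
theorem five_squares (p : ℕ) [hp : Fact p.Prime] : ∃ c : Fin 5 → ℚ_[p], c ≠ 0 ∧ ∑ i, c i ^ 2 = 0 := by
  by_cases h2 : p = 2
  · subst h2
    obtain ⟨z, hz⟩ := sq_two (-7) (by
      rw [map_neg, map_ofNat]
      decide)
    refine ⟨![1, 1, 1, 2, (z : ℚ_[2])], fun h => ?_, ?_⟩
    · have := congrFun h 0
      simp at this
    · have hz' : (z : ℚ_[2]) ^ 2 = -7 := by exact_mod_cast congrArg (fun t : ℤ_[2] => (t : ℚ_[2])) hz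
      simp only [Fin.sum_univ_five, Matrix.cons_val]
      rw [hz']
      norm_num
  · have key : ∀ a b : ZMod p, a ≠ 0 → a ^ 2 + b ^ 2 = -1 →
        ∃ c : Fin 5 → ℚ_[p], c ≠ 0 ∧ ∑ i, c i ^ 2 = 0 := by
      intro a b ha hab
      obtain ⟨z, hz⟩ := sq_lift h2 (-1 - ((b.val : ℕ) : ℤ_[p]) ^ 2) a ha (by
        rw [map_sub, map_neg, map_one, map_pow, toZMod_val, ← hab]; ring)
      have hz' : (z : ℚ_[p]) ^ 2 = -1 - ((b.val : ℕ) : ℚ_[p]) ^ 2 := by
        have := congrArg (fun t : ℤ_[p] => (t : ℚ_[p])) hz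
        push_cast at this
        exact this
      refine ⟨![1, ((b.val : ℕ) : ℚ_[p]), (z : ℚ_[p]), 0, 0], fun h => ?_, ?_⟩
      · have := congrFun h 0
        simp at this
      · simp only [Fin.sum_univ_five, Matrix.cons_val]
        rw [hz']
        ring
    obtain ⟨a, b, hab⟩ := ZMod.sq_add_sq p (-1)
    by_cases ha : a = 0
    · have hb : b ≠ 0 := by
        rintro rfl
        rw [ha] at hab
        simp at hab
      exact key b a hb (by rw [add_comm]; exact hab)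
    · exact key a b ha hab

theorem diag33 (p : ℕ) [hp : Fact p.Prime] (n : ℕ) (hn : 33 ≤ n) (w : Fin n → ℚ_[p]) :
    ∃ x : Fin n → ℚ_[p], x ≠ 0 ∧ ∑ i, w i * (x i * x i) = 0 := by
  classical
  by_cases h0 : ∃ i, w i = 0
  · obtain ⟨i, hi⟩ := h0
    refine ⟨Pi.single i 1, fun h => ?_, ?_⟩
    · have := congrFun h i
      rw [Pi.single_eq_same] at this
      exact one_ne_zero this
    · refine Finset.sum_eq_zero fun j _ => ?_
      by_cases hj : j = i
      · subst hj; rw [hi, zero_mul]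
      · rw [Pi.single_eq_of_ne hj, mul_zero, mul_zero]
  · push Not at h0
    obtain ⟨cl, hcl⟩ := classes p
    obtain ⟨y, hy⟩ := Fintype.exists_lt_card_fiber_of_mul_lt_card (f := fun i : Fin n => cl (w i)) (n := 4)
      (by rw [Fintype.card_fin, Fintype.card_fin]; omega)
    have h5 : 5 ≤ (Finset.univ.filter fun i : Fin n => cl (w i) = y).card := hy
    let j := (Finset.univ.filter fun i : Fin n => cl (w i) = y).orderEmbOfCardLe h5
    have hj : ∀ t, cl (w (j t)) = y := fun t =>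
      (Finset.mem_filter.1 (Finset.orderEmbOfCardLe_mem _ h5 t)).2
    have hs : ∀ t, ∃ s : ℚ_[p], s ≠ 0 ∧ w (j t) = w (j 0) * s ^ 2 := fun t =>
      hcl (w (j 0)) (w (j t)) (h0 _) (h0 _) (by rw [hj, hj])
    choose s hs0 hs using hs
    obtain ⟨c, hc0, hc⟩ := five_squares p
    obtain ⟨t, ht⟩ := Function.ne_iff.1 hc0
    refine ⟨Function.extend j (fun t => c t / s t) 0, fun h => ?_, ?_⟩
    · have h6 := congrFun h (j t)
      rw [j.injective.extend_apply] at h6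
      exact div_ne_zero ht (hs0 t) h6
    · rw [← Fintype.sum_of_injective j j.injective (fun t => w (j 0) * c t ^ 2)]
      · rw [← Finset.mul_sum, hc, mul_zero]
      · intro i hi
        rw [Function.extend_apply' _ _ _ (fun ⟨t, ht⟩ => hi ⟨t, ht⟩)]
        simp
      · intro t
        rw [j.injective.extend_apply, hs t]
        have := hs0 t
        field_simp

theorem sys_one (p : ℕ) [hp : Fact p.Prime] : Sys ℚ_[p] 1 33 := by
  intro V _ _ _ hV Q
  haveI : Invertible (2 : ℚ_[p]) := invertibleOfNonzero two_ne_zero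
  obtain ⟨w, ⟨e⟩⟩ := QuadraticForm.equivalent_weightedSumSquares (Q 0)
  obtain ⟨x, hx0, hx⟩ := diag33 p _ hV w
  refine ⟨e.symm x, fun h => hx0 ?_, fun i => ?_⟩
  · rw [← e.apply_symm_apply x, h]
    exact map_zero e.toLinearEquiv
  · rw [Subsingleton.elim i 0, ← e.map_app, e.apply_symm_apply, QuadraticMap.weightedSumSquares_apply]
    simpa [smul_eq_mul] using hx

end Pool.Agent.W5h66.PW
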