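import Mathlib
import Pool.Agent.W5h66.PW.Pad

/-! Systems of quadratic and linear forms over the ring of `p`-adic integers. -/

set_option autoImplicit false
set_option linter.all false

open Matrix

noncomputable section

namespace Pool.Agent.W5h66.PW

/-- `p`-adic integers -/
theorem hasZeros_padic (p : ℕ) [hp : Fact p.Prime] {D q l : ℕ} (h : Tn 33 q + l ≤ D) :
    HasZeros ℤ_[p] D q l := by
  classical
  intro ι κ _ _ hq hl M N
  let φ : ℤ_[p] →+* ℚ_[p] := PadicInt.Coe.ringHom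
  let NN : Matrix κ (Fin D) ℚ_[p] := Matrix.of fun j t => φ (N j t)
  have h1 := LinearMap.finrank_range_add_finrank_ker NN.mulVecLin
  rw [Module.finrank_fintype_fun_eq_card, Fintype.card_fin] at h1
  have h2 : Module.finrank ℚ_[p] (LinearMap.range NN.mulVecLin) ≤ Fintype.card κ := by
    refine (Submodule.finrank_le _).trans ?_
    rw [Module.finrank_fintype_fun_eq_card]
  have h3 : Tn 33 (Fintype.card ι) ≤ Module.finrank ℚ_[p] (LinearMap.ker NN.mulVecLin) := by
    have := Tn_mono 33 hq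
    omega
  obtain ⟨v, hv0, hv⟩ := sys_all (sys_one p) (Fintype.card ι) (LinearMap.ker NN.mulVecLin) h3
    (fun i => (Matrix.toQuadraticMap' ((M ((Fintype.equivFin ι).symm i)).map φ)).comp
      (LinearMap.ker NN.mulVecLin).subtype)
  have hvM : ∀ i, (v : Fin D → ℚ_[p]) ⬝ᵥ ((M i).map φ *ᵥ (v : Fin D → ℚ_[p])) = 0 := by
    intro i
    have h4 := hv (Fintype.equivFin ι i)
    rw [Equiv.symm_apply_apply] at h4
    rw [← Matrix.toLinearMap₂'_apply']
    exact h4
  have hvN : ∀ j, ∑ t, φ (N j t) * (v : Fin D → ℚ_[p]) t = 0 := fun j => congrFun v.2 j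
  have hv0' : (v : Fin D → ℚ_[p]) ≠ 0 := fun h => hv0 (Subtype.ext h)
  obtain ⟨t1, ht1⟩ := Function.ne_iff.1 hv0'
  haveI : Nonempty (Fin D) := ⟨t1⟩
  obtain ⟨t0, ht0⟩ := Finite.exists_max (fun t => ‖(v : Fin D → ℚ_[p]) t‖)
  have hvt0 : (v : Fin D → ℚ_[p]) t0 ≠ 0 := by
    intro h
    have h4 := ht0 t1
    simp only [h, norm_zero] at h4
    exact ht1 (norm_le_zero_iff.1 h4)
  let a : Fin D → ℤ_[p] := fun t => ⟨(v : Fin D → ℚ_[p]) t / (v : Fin D → ℚ_[p]) t0, by
    rw [norm_div]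
    exact div_le_one_of_le₀ (ht0 t) (norm_nonneg _)⟩
  have ha : ∀ t, φ (a t) = (v : Fin D → ℚ_[p]) t / (v : Fin D → ℚ_[p]) t0 := fun t => rfl
  have hφ : Function.Injective φ := fun x y h => Subtype.ext h
  refine ⟨a, ⟨t0, ?_⟩, fun i => ?_, fun j => ?_⟩
  · have h5 : a t0 = 1 := hφ (by rw [ha, div_self hvt0, map_one])
    rw [h5]
    exact isUnit_one
  · apply hφ
    rw [map_zero]
    have h5 := hvM i
    simp only [dotProduct, mulVec, Matrix.map_apply] at h5 ⊢
    rw [map_sum]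
    simp only [map_mul, map_sum, ha]
    have h6 : ∀ s, (v : Fin D → ℚ_[p]) s / (v : Fin D → ℚ_[p]) t0 *
        ∑ t, φ (M i s t) * ((v : Fin D → ℚ_[p]) t / (v : Fin D → ℚ_[p]) t0) =
        ((v : Fin D → ℚ_[p]) s * ∑ t, φ (M i s t) * (v : Fin D → ℚ_[p]) t) /
          ((v : Fin D → ℚ_[p]) t0) ^ 2 := by
      intro s
      rw [Finset.mul_sum, Finset.mul_sum, Finset.sum_div]
      refine Finset.sum_congr rfl fun t _ => ?_
      field_simp
    simp only [h6]
    rw [← Finset.sum_div, h5, zero_div]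
  · apply hφ
    rw [map_zero]
    have h5 := hvN j
    simp only [dotProduct]
    rw [map_sum]
    simp only [map_mul, ha]
    have h6 : ∀ t, φ (N j t) * ((v : Fin D → ℚ_[p]) t / (v : Fin D → ℚ_[p]) t0) =
        (φ (N j t) * (v : Fin D → ℚ_[p]) t) / (v : Fin D → ℚ_[p]) t0 := fun t => by ring
    simp only [h6]
    rw [← Finset.sum_div, h5, zero_div]

end Pool.Agent.W5h66.PW
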