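import Mathlib
import Pool.Agent.W5h66.PW.Zp
import Pool.Agent.W5h66.PW.Greedy
import Pool.Agent.W5h93.PI.All

/-! From local solutions to solutions modulo `n`, and to symbols. -/

set_option autoImplicit false
set_option linter.all false

open Matrix

noncomputable section

namespace Pool.Agent.W5h66.PW

open Pool.Agent.Y109.PI Pool.Agent.W5h93.PI

/-- the local statement modulo `N` -/
def Loc (N : ℕ) {m d h : ℕ} (s : ℕ) (ω : Matrix (Fin d) (Fin d) ℤ)
    (b : Matrix ((Fin m × Fin d) ⊕ Fin h) ((Fin m × Fin d) ⊕ Fin h) ℤ) : Prop :=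
  ∃ (S : Fin m × Fin m → ℤ) (e f : Fin s × ((Fin m × Fin d) ⊕ Fin h) → ℤ), (∀ i j, S (i, j) = S (j, i)) ∧
    ∀ u v, (((b + T h (Matrix.of fun i j => S (i, j)) ω) u v : ℤ) : ZMod N) =
      ((∑ i, wdg (fun u => e (i, u)) (fun u => f (i, u)) : Matrix ((Fin m × Fin d) ⊕ Fin h)
        ((Fin m × Fin d) ⊕ Fin h) ℤ) u v : ℤ)

theorem loc_of {R : Type} [CommRing R] [IsDomain R] [IsPrincipalIdealRing R] [IsLocalRing R] {K : Type}
    [Field K] [Algebra R K] (hinj : Function.Injective (algebraMap R K)) {m d h c s : ℕ}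
    (hd : 0 < d) (hs : m * d + h ≤ 2 * s + 1 + c)
    (hz : ∀ i < c, ∃ D, D + d + i * d ≤ m + 1 ∧ HasZeros R D (d * (d - 1) / 2 - 1) (i * (d * d) + h))
    (N : ℕ) [NeZero N] (ψ : R →+* ZMod N)
    (ω : Matrix (Fin d) (Fin d) ℤ) (hω : Alt ω) (hdet : IsUnit ((ω.det : ℤ) : R))
    (b : Matrix ((Fin m × Fin d) ⊕ Fin h) ((Fin m × Fin d) ⊕ Fin h) ℤ) (hb : Alt b) : Loc N s ω b := by
  let φ : ℤ →+* R := Int.castRingHom R
  obtain ⟨S, hS, e, f, hef⟩ := greedy hinj hd hs hz (ω.map φ) (hω.map' φ) (by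
    have h1 := RingHom.map_det φ ω
    rw [eq_intCast] at h1
    have h2 : φ.mapMatrix ω = ω.map φ := rfl
    rw [← h2, ← h1]
    exact hdet) (b.map φ) (hb.map' φ)
  have hval : ∀ z : R, (((ψ z).val : ℤ) : ZMod N) = ψ z := by
    intro z
    rw [Int.cast_natCast]
    exact ZMod.natCast_zmod_val _
  refine ⟨fun x => ((ψ (S x.1 x.2)).val : ℤ), fun q => ((ψ (e q.1 q.2)).val : ℤ),
    fun q => ((ψ (f q.1 q.2)).val : ℤ), fun i j => ?_, fun u v => ?_⟩
  · have : S i j = S j i := congrFun (congrFun hS j) i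
    simp only [this]
  · have h1 := congrArg ψ (congrFun (congrFun hef u) v)
    have h3 : ψ ((b.map φ + T h S (ω.map φ)) u v) =
        (((b + T h (Matrix.of fun i j => ((ψ (S i j)).val : ℤ)) ω) u v : ℤ) : ZMod N) := by
      rw [Matrix.add_apply, Matrix.add_apply, map_add, Int.cast_add, Matrix.map_apply, eq_intCast, map_intCast]
      congr 1
      rcases u with u | u
      · rcases v with v | v
        · rw [T_inl, T_inl, map_mul, Int.cast_mul, Matrix.map_apply, eq_intCast, map_intCast, Matrix.of_apply,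
            hval]
        · rw [T_inl_inr, T_inl_inr, map_zero, Int.cast_zero]
      · rw [T_inr, T_inr, map_zero, Int.cast_zero]
    have h4 : ψ ((∑ i, wdg (e i) (f i)) u v) =
        (((∑ i, wdg (fun u => ((ψ (e i u)).val : ℤ)) (fun u => ((ψ (f i u)).val : ℤ)) :
          Matrix ((Fin m × Fin d) ⊕ Fin h) ((Fin m × Fin d) ⊕ Fin h) ℤ) u v : ℤ) : ZMod N) := by
      simp only [Matrix.sum_apply, map_sum, wdg, Matrix.of_apply, map_sub, map_mul, Int.cast_sum,
        Int.cast_sub, Int.cast_mul, hval]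
    rw [h3, h4] at h1
    exact h1

/-- gluing -/
theorem glue (n : ℕ) (hn : 0 < n) {m d h s : ℕ} (ω : Matrix (Fin d) (Fin d) ℤ)
    (b : Matrix ((Fin m × Fin d) ⊕ Fin h) ((Fin m × Fin d) ⊕ Fin h) ℤ)
    (hloc : ∀ p : ℕ, p.Prime → p ∣ n → Loc (p ^ n.factorization p) s ω b) :
    ∃ S : Matrix (Fin m) (Fin m) ℤ, (∀ i j, S i j = S j i) ∧
      ∃ e f : Fin s → ((Fin m × Fin d) ⊕ Fin h) → ℤ, ∀ u v,
        (n : ℤ) ∣ (b + T h S ω) u v - (∑ i, wdg (e i) (f i)) u v := by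
  have h1 : ∀ p : ℕ, ∃ (S : Fin m × Fin m → ℤ) (e f : Fin s × ((Fin m × Fin d) ⊕ Fin h) → ℤ),
      p.Prime → p ∣ n → (∀ i j, S (i, j) = S (j, i)) ∧
      ∀ u v, (((b + T h (Matrix.of fun i j => S (i, j)) ω) u v : ℤ) : ZMod (p ^ n.factorization p)) =
        ((∑ i, wdg (fun u => e (i, u)) (fun u => f (i, u)) : Matrix ((Fin m × Fin d) ⊕ Fin h)
          ((Fin m × Fin d) ⊕ Fin h) ℤ) u v : ℤ) := by
    intro p
    by_cases hp : p.Prime ∧ p ∣ n
    · obtain ⟨S, e, f, h2⟩ := hloc p hp.1 hp.2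
      exact ⟨S, e, f, fun _ _ => h2⟩
    · exact ⟨0, 0, 0, fun a b => absurd ⟨a, b⟩ hp⟩
  choose S e f hSef using h1
  obtain ⟨x, hx⟩ := crt_pow_fun n hn S
  obtain ⟨y, hy⟩ := crt_pow_fun n hn e
  obtain ⟨y', hy'⟩ := crt_pow_fun n hn f
  let SS : Matrix (Fin m) (Fin m) ℤ := Matrix.of fun i j => if i ≤ j then x (i, j) else x (j, i)
  have hSS : ∀ p : ℕ, p.Prime → p ∣ n → ∀ i j, ((SS i j : ℤ) : ZMod (p ^ n.factorization p)) = S p (i, j) := by
    intro p hp hpn i j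
    simp only [SS, Matrix.of_apply]
    split_ifs with hij
    · exact hx p hp hpn (i, j)
    · rw [hx p hp hpn (j, i), (hSef p hp hpn).1]
  refine ⟨SS, fun i j => ?_, fun i u => y (i, u), fun i u => y' (i, u), fun u v => ?_⟩
  · simp only [SS, Matrix.of_apply]
    rcases lt_trichotomy i j with h2 | h2 | h2
    · rw [if_pos h2.le, if_neg (not_le.2 h2)]
    · subst h2; rfl
    · rw [if_neg (not_le.2 h2), if_pos h2.le]
  have key : ∀ p : ℕ, p.Prime → p ∣ n → ((p ^ n.factorization p : ℕ) : ℤ) ∣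
      (b + T h SS ω) u v - (∑ i, wdg (fun u => y (i, u)) (fun u => y' (i, u))) u v := by
    intro p hp hpn
    rw [← ZMod.intCast_zmod_eq_zero_iff_dvd, Int.cast_sub, sub_eq_zero]
    have h2 : (((b + T h SS ω) u v : ℤ) : ZMod (p ^ n.factorization p)) =
        (((b + T h (Matrix.of fun i j => S p (i, j)) ω) u v : ℤ) : ZMod (p ^ n.factorization p)) := by
      rw [Matrix.add_apply, Matrix.add_apply, Int.cast_add, Int.cast_add]
      congr 1
      rcases u with u | u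
      · rcases v with v | v
        · rw [T_inl, T_inl, Int.cast_mul, Int.cast_mul, hSS p hp hpn, Matrix.of_apply]
        · rw [T_inl_inr, T_inl_inr]
      · rw [T_inr, T_inr]
    rw [h2, (hSef p hp hpn).2]
    simp only [Matrix.sum_apply, wdg, Matrix.of_apply, Int.cast_sum, Int.cast_sub, Int.cast_mul,
      hy p hp hpn, hy' p hp hpn]
  have h3 : n ∣ ((b + T h SS ω) u v -
      (∑ i, wdg (fun u => y (i, u)) (fun u => y' (i, u))) u v).natAbs := by
    refine (Nat.dvd_iff_prime_pow_dvd_dvd _ _).2 fun p j hp hj => ?_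
    rcases Nat.eq_zero_or_pos j with h0 | h0
    · rw [h0, pow_zero]; exact one_dvd _
    · have hpn : p ∣ n := (dvd_pow_self p h0.ne').trans hj
      have h4 := Int.natCast_dvd.1 (key p hp hpn)
      exact (pow_dvd_pow p ((hp.pow_dvd_iff_le_factorization hn.ne').1 hj)).trans h4
  exact Int.natCast_dvd.2 h3

/-- **The global statement.** -/
theorem exists_sym (n : ℕ) (hn : 0 < n) {m d h c s : ℕ} (hd : 2 ≤ d) (hs : m * d + h ≤ 2 * s + 1 + c)
    (hm : (Squarefree n ∧ (d * d + d) * c + h ≤ m + d + 2) ∨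
      34 * 2 ^ (d * (d - 1) / 2 - 1) + (d * d + d) * c + h ≤ m + 34 + d * d)
    (ω : Matrix (Fin d) (Fin d) ℤ) (hω : Alt ω) (hdet : IsCoprime ω.det (n : ℤ))
    (b : Matrix ((Fin m × Fin d) ⊕ Fin h) ((Fin m × Fin d) ⊕ Fin h) ℤ) (hb : Alt b) :
    ∃ S : Matrix (Fin m) (Fin m) ℤ, (∀ i j, S i j = S j i) ∧
      ∃ e f : Fin s → ((Fin m × Fin d) ⊕ Fin h) → ℤ, ∀ u v,
        (n : ℤ) ∣ (b + T h S ω) u v - (∑ i, wdg (e i) (f i)) u v := by
  refine glue n hn ω b fun p hp hpn => ?_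
  haveI : Fact p.Prime := ⟨hp⟩
  haveI : NeZero p := ⟨hp.ne_zero⟩
  have hpdet : ¬ (p : ℤ) ∣ ω.det := by
    intro h
    have h1 : IsUnit (p : ℤ) := hdet.isUnit_of_dvd' h (Int.natCast_dvd_natCast.2 hpn)
    exact (Nat.prime_iff_prime_int.1 hp).not_unit h1
  have hbound : ∀ i < c, i * (d * d) + i * d + d * d + d ≤ (d * d + d) * c := by
    intro i hi
    have h1 : (i + 1) * (d * d + d) ≤ c * (d * d + d) := Nat.mul_le_mul_right _ hi
    have h2 : (i + 1) * (d * d + d) = i * (d * d) + i * d + d * d + d := by ring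
    rw [← h2, mul_comm (d * d + d)]
    exact h1
  rcases hm with ⟨hsq, hm⟩ | hm
  · have hk : n.factorization p = 1 :=
      le_antisymm ((Nat.squarefree_iff_factorization_le_one hn.ne').1 hsq p)
        (hp.factorization_pos_of_dvd hn.ne' hpn)
    rw [hk, pow_one]
    refine loc_of (R := ZMod p) (K := ZMod p) (fun a b h => h) (by omega) hs (fun i hi => ?_) p
      (RingHom.id _) ω hω ?_ b hb
    · refine ⟨2 * (d * (d - 1) / 2 - 1) + (i * (d * d) + h) + 1, ?_, hasZeros_zmod p (by omega)⟩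
      have h1 := hbound i hi
      have h2 : d * (d - 1) + d = d * d := by
        obtain ⟨e, rfl⟩ := Nat.exists_eq_add_of_le hd
        rw [show 2 + e - 1 = 1 + e by omega]; ring
      have h3 : 2 ≤ d * (d - 1) := by
        calc 2 = 2 * 1 := rfl
          _ ≤ d * (d - 1) := Nat.mul_le_mul hd (by omega)
      omega
    · rw [isUnit_iff_ne_zero]
      intro h
      exact hpdet ((ZMod.intCast_zmod_eq_zero_iff_dvd _ _).1 h)
  · haveI : NeZero (p ^ n.factorization p) := ⟨(pow_pos hp.pos _).ne'⟩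
    refine loc_of (R := ℤ_[p]) (K := ℚ_[p]) (IsFractionRing.injective ℤ_[p] ℚ_[p]) (by omega) hs
      (fun i hi => ?_) (p ^ n.factorization p) (PadicInt.toZModPow (p := p) (n.factorization p)) ω hω ?_ b hb
    · refine ⟨Tn 33 (d * (d - 1) / 2 - 1) + (i * (d * d) + h), ?_, hasZeros_padic p le_rfl⟩
      have h1 := hbound i hi
      have h2 := Tn_eq 33 (d * (d - 1) / 2 - 1)
      have h3 : (33 + 1) * 2 ^ (d * (d - 1) / 2 - 1) = 34 * 2 ^ (d * (d - 1) / 2 - 1) := by norm_num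
      rw [h3] at h2
      omega
    · rw [isUnit_iff_toZMod, map_intCast]
      intro h
      exact hpdet ((ZMod.intCast_zmod_eq_zero_iff_dvd _ _).1 h)

end Pool.Agent.W5h66.PW
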