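import Mathlib
import Pool.Agent.W5h66.PW.Glue

/-! Symbols on powers. -/

set_option autoImplicit false
set_option linter.all false

open Matrix

noncomputable section

namespace Pool.Agent.W5h66.PW

open Pool.Agent.Y109.PI Pool.Agent.W5h93.PI

variable {m d h : ℕ}

/-- the exponents of the pull-back of the class with the exponents `w0` under the homomorphism
with the coefficients `r` -/
def wr (h : ℕ) (w0 : Fin d → Fin d → ℤ) (r : Fin m → ℤ) :
    (Fin m × Fin d) ⊕ Fin h → (Fin m × Fin d) ⊕ Fin h → ℤ :=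
  fun p q => Sum.elim (fun iu => Sum.elim (fun jv => r iu.1 * r jv.1 * w0 iu.2 jv.2) (fun _ => 0) q)
    (fun _ => 0) p

theorem dif_wr (w0 : Fin d → Fin d → ℤ) (r : Fin m → ℤ) :
    dif (wr h w0 r) = T h (Matrix.of fun i j => r i * r j) (dif w0) := by
  ext u v
  rcases u with u | u
  · rcases v with v | v
    · rw [T_inl]
      simp only [dif, wr, Matrix.of_apply, Sum.elim_inl]
      ring
    · rw [T_inl_inr]
      simp only [dif, wr, Matrix.of_apply, Sum.elim_inl, Sum.elim_inr, sub_zero]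
  · rw [T_inr]
    rcases v with v | v
    · simp only [dif, wr, Matrix.of_apply, Sum.elim_inl, Sum.elim_inr, sub_zero]
    · simp only [dif, wr, Matrix.of_apply, Sum.elim_inl, Sum.elim_inr, sub_zero]

theorem T_add (S S' : Matrix (Fin m) (Fin m) ℤ) (ω : Matrix (Fin d) (Fin d) ℤ) :
    T h (S + S') ω = T h S ω + T h S' ω := by
  ext u v
  rw [Matrix.add_apply]
  rcases u with u | u
  · rcases v with v | v
    · rw [T_inl, T_inl, T_inl, Matrix.add_apply]; ring
    · rw [T_inl_inr, T_inl_inr, T_inl_inr, add_zero]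
  · rw [T_inr, T_inr, T_inr, add_zero]

theorem T_neg (S : Matrix (Fin m) (Fin m) ℤ) (ω : Matrix (Fin d) (Fin d) ℤ) :
    T h (-S) ω = - T h S ω := by
  ext u v
  rw [Matrix.neg_apply]
  rcases u with u | u
  · rcases v with v | v
    · rw [T_inl, T_inl, Matrix.neg_apply]; ring
    · rw [T_inl_inr, T_inl_inr, neg_zero]
  · rw [T_inr, T_inr, neg_zero]

theorem T_zero (ω : Matrix (Fin d) (Fin d) ℤ) : T h (0 : Matrix (Fin m) (Fin m) ℤ) ω = 0 := by
  ext u v
  rw [Matrix.zero_apply]
  rcases u with u | u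
  · rcases v with v | v
    · rw [T_inl, Matrix.zero_apply, zero_mul]
    · rw [T_inl_inr]
  · rw [T_inr]

/-- rank one matrices -/
def R1 (r : Fin m → ℤ) : Matrix (Fin m) (Fin m) ℤ := Matrix.of fun i j => r i * r j

/-- symmetric integral matrices are combinations of rank one matrices -/
theorem sym_mem (A : AddSubgroup (Matrix (Fin m) (Fin m) ℤ)) (hA : ∀ r, R1 r ∈ A)
    (S : Matrix (Fin m) (Fin m) ℤ) (hS : ∀ i j, S i j = S j i) : S ∈ A := by
  classical
  have key : S = (∑ i, ∑ j, (if i ≤ j then S i j else 0) •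
      (R1 (Pi.single i 1 + Pi.single j 1) - R1 (Pi.single i 1) - R1 (Pi.single j 1))) -
      ∑ i, S i i • R1 (Pi.single i 1) := by
    ext a b
    rw [Matrix.sub_apply, Matrix.sum_apply, Matrix.sum_apply]
    have h1 : ∀ i, (∑ j, (if i ≤ j then S i j else 0) •
      (R1 (Pi.single i 1 + Pi.single j 1) - R1 (Pi.single i 1) - R1 (Pi.single j 1)) :
        Matrix (Fin m) (Fin m) ℤ) a b = ∑ j, ((if i = a then (if j = b then (if i ≤ j then S i j else 0) else 0) else 0) +
          (if i = b then (if j = a then (if i ≤ j then S i j else 0) else 0) else 0)) := by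
      intro i
      rw [Matrix.sum_apply]
      refine Finset.sum_congr rfl fun j _ => ?_
      simp only [R1, Matrix.smul_apply, Matrix.sub_apply, Matrix.of_apply, Pi.add_apply, smul_eq_mul,
        Pi.single_apply]
      by_cases e1 : i = a <;> by_cases e2 : i = b <;> by_cases e3 : j = a <;> by_cases e4 : j = b <;>
        simp [e1, e2, e3, e4, eq_comm] <;> simp_all [eq_comm] <;> ring
    simp only [h1, Finset.sum_add_distrib]
    have h2 : ∀ c c' : Fin m, ∑ i, ∑ j, (if i = c then (if j = c' then (if i ≤ j then S i j else 0) else 0) else 0) =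
        if c ≤ c' then S c c' else 0 := by
      intro c c'
      rw [Finset.sum_eq_single c]
      · rw [Finset.sum_eq_single c']
        · rw [if_pos rfl, if_pos rfl]
        · intro j _ hj
          rw [if_pos rfl, if_neg hj]
        · intro h'; exact absurd (Finset.mem_univ _) h'
      · intro i _ hi
        exact Finset.sum_eq_zero fun j _ => if_neg hi
      · intro h'; exact absurd (Finset.mem_univ _) h'
    rw [h2, h2]
    have h3 : ∑ i, (S i i • R1 (Pi.single i 1) : Matrix (Fin m) (Fin m) ℤ) a b = if a = b then S a a else 0 := by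
      rw [Finset.sum_eq_single a]
      · simp only [R1, Matrix.smul_apply, Matrix.of_apply, smul_eq_mul, Pi.single_apply, if_true]
        by_cases e : a = b
        · subst e; simp
        · simp [e, Ne.symm e]
      · intro i _ hi
        simp only [R1, Matrix.smul_apply, Matrix.of_apply, smul_eq_mul, Pi.single_apply]
        rw [if_neg (Ne.symm hi)]
        simp
      · intro h'; exact absurd (Finset.mem_univ _) h'
    rw [h3]
    rcases lt_trichotomy a b with e | e | e
    · rw [if_pos e.le, if_neg (not_le.2 e), if_neg e.ne]; ring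
    · subst e
      simp
    · rw [if_neg (not_le.2 e), if_pos e.le, if_neg e.ne', hS a b]; ring
  rw [key]
  refine A.sub_mem (A.sum_mem fun i _ => A.sum_mem fun j _ => A.zsmul_mem ?_ _) (A.sum_mem fun i _ =>
    A.zsmul_mem (hA _) _)
  exact A.sub_mem (A.sub_mem (hA _) (hA _)) (hA _)

section

variable {G B : Type*} [CommGroup G] [CommGroup B] {s : G →* G →* B}

theorem exists_w (n : ℕ) (H : Subgroup G) (V : Subgroup B) (z : (Fin m × Fin d) ⊕ Fin h → G)
    (w0 : Fin d → Fin d → ℤ) (hrel : ∀ r : Fin m → ℤ, Q s z (wr h w0 r) ∈ low s H V z)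
    (S : Matrix (Fin m) (Fin m) ℤ) (hS : ∀ i j, S i j = S j i) :
    ∃ w : (Fin m × Fin d) ⊕ Fin h → (Fin m × Fin d) ⊕ Fin h → ℤ, dif w = T h S (dif w0) ∧
      Q s z w ∈ low s H V z := by
  let A : AddSubgroup (Matrix (Fin m) (Fin m) ℤ) :=
    { carrier := {S | ∃ w : (Fin m × Fin d) ⊕ Fin h → (Fin m × Fin d) ⊕ Fin h → ℤ,
        dif w = T h S (dif w0) ∧ Q s z w ∈ low s H V z}
      add_mem' := by
        rintro S S' ⟨w, h1, h2⟩ ⟨w', h3, h4⟩
        refine ⟨w + w', ?_, ?_⟩
        · rw [T_add, ← h1, ← h3]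
          ext u v
          simp only [dif, Matrix.of_apply, Pi.add_apply, Matrix.add_apply]; ring
        · rw [Q_add]; exact Subgroup.mul_mem _ h2 h4
      zero_mem' := by
        refine ⟨0, ?_, ?_⟩
        · rw [T_zero]
          ext u v
          simp [dif]
        · rw [Q_zero]; exact Subgroup.one_mem _
      neg_mem' := by
        rintro S ⟨w, h1, h2⟩
        refine ⟨-w, ?_, ?_⟩
        · rw [T_neg, ← h1]
          ext u v
          simp only [dif, Matrix.of_apply, Pi.neg_apply, Matrix.neg_apply]; ring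
        · rw [Q_neg]; exact Subgroup.inv_mem _ h2 }
  exact sym_mem A (fun r => ⟨wr h w0 r, dif_wr w0 r, hrel r⟩) S hS

/-- **Products of few symbols modulo lower terms.** -/
theorem abs_pow (hanti : ∀ a b, s a b = (s b a)⁻¹) (n : ℕ) (hn : 0 < n)
    (htors : ∀ a b, s a b ^ n = 1) (ε : G)
    (H : Subgroup G) (hε : ε ∈ H) (hdiag : ∀ a, s a a = 1 ∨ s a a = s a ε) (V : Subgroup B)
    (hV : ∀ a ∈ H, ∀ b ∈ H, s a b ∈ V) (z : (Fin m × Fin d) ⊕ Fin h → G)
    (w0 : Fin d → Fin d → ℤ) (hrel : ∀ r : Fin m → ℤ, Q s z (wr h w0 r) ∈ low s H V z)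
    {c t : ℕ} (hd : 2 ≤ d) (ht : m * d + h ≤ 2 * t + 1 + c)
    (hm : (Squarefree n ∧ (d * d + d) * c + h ≤ m + d + 2) ∨
      34 * 2 ^ (d * (d - 1) / 2 - 1) + (d * d + d) * c + h ≤ m + 34 + d * d)
    (hdet : IsCoprime (dif w0).det (n : ℤ))
    (α : B) (hα : α ∈ Subgroup.closure {γ | ∃ a ∈ H ⊔ Subgroup.closure (Set.range z),
      ∃ b ∈ H ⊔ Subgroup.closure (Set.range z), γ = s a b}) :
    ∃ x y : Fin t → G, α * (∏ i, s (x i) (y i))⁻¹ ∈ low s H V z := by
  obtain ⟨w1, hw1⟩ := exists_Q hanti H V hV z α hα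
  obtain ⟨S, hS, e, f, h1⟩ := exists_sym n hn hd ht hm (dif w0) (alt_dif w0) hdet (dif w1) (alt_dif w1)
  obtain ⟨w2, hw2, hw2'⟩ := exists_w (s := s) n H V z w0 hrel S hS
  refine ⟨fun i => mon z (e i), fun i => mon z (f i), ?_⟩
  have h2 := mod_low hanti n htors ε H hε hdiag V z (w1 + w2) t e f (by
    intro u v
    have e1 : (w1 + w2) u v - (w1 + w2) v u = (dif w1 + T h S (dif w0)) u v := by
      rw [← hw2]
      simp only [Pi.add_apply, Matrix.add_apply, Matrix.of_apply, dif]
      ring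
    rw [e1]
    exact h1 u v)
  rw [Q_add] at h2
  have h3 := Subgroup.mul_mem _ (Subgroup.mul_mem _ hw1 h2) (Subgroup.inv_mem _ hw2')
  have e1 : ∀ p q r : B, α * p⁻¹ * (p * q * r) * q⁻¹ = α * r := by
    intro p q r
    calc α * p⁻¹ * (p * q * r) * q⁻¹ = α * r * (p * p⁻¹) * (q * q⁻¹) := by
          simp only [mul_assoc, mul_comm, mul_left_comm]
      _ = α * r := by rw [mul_inv_cancel, mul_inv_cancel, mul_one, mul_one]
  rw [e1] at h3
  exact h3

end

end Pool.Agent.W5h66.PW
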